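import Mathlib

/-!
# The chromatic number of the degree-`(k+t)` vertices of a `k`-tree

For `k`-trees `G` of order at least `k+t+2` the vertices of degree exactly `k+t` induce a subgraph
of chromatic number at most `t+1`, and this is best possible.
-/

namespace Pool.Agent.Results.MP_26d357_co.GrowthIsLinear

open SimpleGraph

/-- `k`-trees: a complete graph on `k+1` vertices is a `k`-tree, and `G` is a `k`-tree if it has a
vertex `w` with exactly `k` neighbours, which form a clique, such that `G - w` is a `k`-tree. -/
inductive IsKTree (k : ℕ) : ∀ {V : Type}, SimpleGraph V → Prop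
  | complete {V : Type} (h : Nat.card V = k + 1) : IsKTree k (⊤ : SimpleGraph V)
  | add {V : Type} (G : SimpleGraph V) (w : V) (hG : IsKTree k (G.induce {w}ᶜ))
      (hcard : (G.neighborSet w).ncard = k) (hcl : G.IsClique (G.neighborSet w)) : IsKTree k G

/-- The set of vertices of degree exactly `i`. -/
def degSet {V : Type} (G : SimpleGraph V) (i : ℕ) : Set V := {v | (G.neighborSet v).ncard = i}

/-- `g t` is the supremum of the chromatic numbers of the subgraphs induced by the vertices of degree
`k+t` in `k`-trees of order at least `k+t+2`, over all `k ≥ 1`. -/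
noncomputable def g (t : ℕ) : ℕ∞ :=
  sSup {x : ℕ∞ | ∃ (k : ℕ) (V : Type) (G : SimpleGraph V), 1 ≤ k ∧ IsKTree k G ∧
    k + t + 2 ≤ Nat.card V ∧ x = (G.induce (degSet G (k + t))).chromaticNumber}

variable {k : ℕ}

lemma finite_of_compl {V : Type} {w : V} (h : Finite ({w}ᶜ : Set V)) : Finite V := by
  have h1 : ({w}ᶜ : Set V).Finite := h
  have h2 : (Set.univ : Set V).Finite := by
    rw [← Set.compl_union_self {w}]
    exact h1.union (Set.finite_singleton w)
  exact Set.finite_univ_iff.mp h2

lemma card_compl {V : Type} [Finite V] (w : V) : Nat.card V = Nat.card ({w}ᶜ : Set V) + 1 := by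
  have h := Set.ncard_add_ncard_compl ({w} : Set V)
  rw [Set.ncard_singleton] at h
  rw [Nat.card_coe_set_eq]
  omega

lemma IsKTree.finite {V : Type} {G : SimpleGraph V} (h : IsKTree k G) : Finite V := by
  induction h with
  | complete h => exact Nat.finite_of_card_ne_zero (by omega)
  | add G w hG hcard hcl ih => exact finite_of_compl ih

lemma IsKTree.card {V : Type} {G : SimpleGraph V} (h : IsKTree k G) : k + 1 ≤ Nat.card V := by
  induction h with
  | complete h => exact h.ge
  | add G w hG hcard hcl ih =>
    have := finite_of_compl hG.finite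
    rw [card_compl w]
    omega

/-- preimage of a set in the complement of a point -/
lemma ncard_preimage_notMem {V : Type} [Finite V] (w : V) (C : Set V) (hw : w ∉ C) :
    ((Subtype.val : ({w}ᶜ : Set V) → V) ⁻¹' C).ncard = C.ncard := by
  rw [← Set.ncard_image_of_injective _ Subtype.val_injective, Set.image_preimage_eq_inter_range,
    Subtype.range_val]
  congr 1
  ext x
  simp only [Set.mem_inter_iff, Set.mem_compl_iff, Set.mem_singleton_iff, and_iff_left_iff_imp]
  rintro hx rfl
  exact hw hx

lemma ncard_preimage_mem {V : Type} [Finite V] (w : V) (C : Set V) (hw : w ∈ C) :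
    ((Subtype.val : ({w}ᶜ : Set V) → V) ⁻¹' C).ncard + 1 = C.ncard := by
  rw [← Set.ncard_image_of_injective _ Subtype.val_injective, Set.image_preimage_eq_inter_range,
    Subtype.range_val]
  have : C ∩ {w}ᶜ = C \ {w} := rfl
  rw [this]
  exact Set.ncard_sdiff_singleton_add_one hw

lemma neighborSet_induce {V : Type} (G : SimpleGraph V) (w : V) (v : ({w}ᶜ : Set V)) :
    (G.induce {w}ᶜ).neighborSet v = Subtype.val ⁻¹' (G.neighborSet v) := by
  ext x
  simp

lemma deg_of_adj {V : Type} [Finite V] (G : SimpleGraph V) (w : V) (v : ({w}ᶜ : Set V))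
    (h : G.Adj v w) : (G.neighborSet v).ncard = ((G.induce {w}ᶜ).neighborSet v).ncard + 1 := by
  rw [neighborSet_induce, ncard_preimage_mem]
  exact h

lemma deg_ge {V : Type} [Finite V] (G : SimpleGraph V) (w : V) (v : ({w}ᶜ : Set V)) :
    ((G.induce {w}ᶜ).neighborSet v).ncard ≤ (G.neighborSet v).ncard := by
  rw [neighborSet_induce]
  by_cases h : w ∈ G.neighborSet v
  · have := ncard_preimage_mem w _ h
    omega
  · rw [ncard_preimage_notMem w _ h]

lemma isClique_preimage {V : Type} {G : SimpleGraph V} {w : V} {C : Set V} (hC : G.IsClique C) :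
    (G.induce {w}ᶜ).IsClique (Subtype.val ⁻¹' C) := by
  intro x hx y hy hxy
  exact hC hx hy (fun h => hxy (Subtype.ext h))

lemma IsKTree.minDeg {V : Type} {G : SimpleGraph V} (h : IsKTree k G) (v : V) :
    k ≤ (G.neighborSet v).ncard := by
  induction h with
  | @complete V h =>
    have : Finite V := Nat.finite_of_card_ne_zero (by omega)
    have e : (⊤ : SimpleGraph V).neighborSet v = {v}ᶜ := by
      ext x
      simp [eq_comm]
    rw [e]
    have := card_compl v
    rw [Nat.card_coe_set_eq] at this
    omega
  | add G w hG hcard hcl ih =>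
    have := finite_of_compl hG.finite
    by_cases hv : v = w
    · subst hv
      exact hcard.ge
    · exact (ih ⟨v, hv⟩).trans (deg_ge G w ⟨v, hv⟩)

lemma IsKTree.clique_le {V : Type} {G : SimpleGraph V} (h : IsKTree k G) (C : Set V)
    (hC : G.IsClique C) : C.ncard ≤ k + 1 := by
  induction h with
  | @complete V h =>
    have : Finite V := Nat.finite_of_card_ne_zero (by omega)
    rw [← h]
    exact Set.ncard_le_card C
  | add G w hG hcard hcl ih =>
    have := finite_of_compl hG.finite
    by_cases hw : w ∈ C
    · have h1 : C ⊆ insert w (G.neighborSet w) := by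
        intro x hx
        by_cases hxw : x = w
        · exact Or.inl hxw
        · exact Or.inr (hC hw hx (Ne.symm hxw))
      have h2 := Set.ncard_le_ncard h1 (Set.toFinite _)
      have h3 := Set.ncard_insert_le w (G.neighborSet w)
      omega
    · have := ih _ (isClique_preimage hC)
      rwa [ncard_preimage_notMem w C hw] at this

/-- In a graph of order `n`, a vertex with at least `n-1` neighbours is adjacent to all others. -/
lemma universal {V : Type} [Finite V] (G : SimpleGraph V) (v : V) {d : ℕ}
    (hd : Nat.card V ≤ d + 1) (h : d ≤ (G.neighborSet v).ncard) (x : V) (hx : x ≠ v) :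
    G.Adj v x := by
  have h1 : G.neighborSet v ⊆ {v}ᶜ := by
    intro y hy hyv
    rw [Set.mem_singleton_iff] at hyv
    subst hyv
    exact G.loopless.irrefl _ hy
  have h2 := card_compl v
  rw [Nat.card_coe_set_eq] at h2
  have h3 : G.neighborSet v = {v}ᶜ :=
    Set.eq_of_subset_of_ncard_le h1 (by omega) (Set.toFinite _)
  have : x ∈ G.neighborSet v := by
    rw [h3]
    exact hx
  exact this

/-- **Key lemma.** In a `k`-tree of order at least `k+1+s`, every clique with more than `s` vertices
has a vertex of degree at least `k+s`. -/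
lemma IsKTree.key {V : Type} {G : SimpleGraph V} (h : IsKTree k G) :
    ∀ (s : ℕ) (C : Set V), G.IsClique C → s + 1 ≤ C.ncard → k + 1 + s ≤ Nat.card V →
      ∃ v ∈ C, k + s ≤ (G.neighborSet v).ncard := by
  induction h with
  | @complete V h =>
    intro s C hC hs hn
    have hG : IsKTree k (⊤ : SimpleGraph V) := .complete h
    have hs0 : s = 0 := by omega
    subst hs0
    obtain ⟨v, hv⟩ := Set.nonempty_of_ncard_ne_zero (s := C) (by omega)
    exact ⟨v, hv, by simpa using hG.minDeg v⟩
  | add G w hG hcard hcl ih =>
    intro s C hC hs hn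
    have hGG : IsKTree k G := .add G w hG hcard hcl
    have := finite_of_compl hG.finite
    have hcV := card_compl w
    rcases Nat.eq_zero_or_pos s with rfl | hspos
    · obtain ⟨v, hv⟩ := Set.nonempty_of_ncard_ne_zero (s := C) (by omega)
      exact ⟨v, hv, by simpa using hGG.minDeg v⟩
    obtain ⟨s', rfl⟩ : ∃ s', s = s' + 1 := ⟨s - 1, by omega⟩
    by_cases hw : w ∈ C
    · have h1 := ncard_preimage_mem w C hw
      obtain ⟨v, hv, hdeg⟩ := ih s' _ (isClique_preimage hC) (by omega) (by omega)
      have hvw : G.Adj v w := hC hv hw v.2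
      refine ⟨v, hv, ?_⟩
      rw [deg_of_adj G w v hvw]
      omega
    · have h1 := ncard_preimage_notMem w C hw
      by_cases hbig : k + 1 + (s' + 1) ≤ Nat.card ({w}ᶜ : Set _)
      · obtain ⟨v, hv, hdeg⟩ := ih (s' + 1) _ (isClique_preimage hC) (by omega) hbig
        exact ⟨v, hv, hdeg.trans (deg_ge G w v)⟩
      · set C' := (Subtype.val : ({w}ᶜ : Set _) → _) ⁻¹' C with hC'
        have hcl' : (G.induce {w}ᶜ).IsClique C' := isClique_preimage hC
        obtain ⟨v₁, hv₁, hd₁⟩ := ih s' C' hcl' (by omega) (by omega)
        have h2 := Set.ncard_sdiff_singleton_add_one hv₁ (Set.toFinite _)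
        obtain ⟨v₂, hv₂, hd₂⟩ := ih s' (C' \ {v₁}) (hcl'.subset Set.sdiff_subset) (by omega) (by omega)
        have hu₁ := universal (G.induce {w}ᶜ) v₁ (by omega) hd₁
        have hu₂ := universal (G.induce {w}ᶜ) v₂ (by omega) hd₂
        by_cases ha₁ : G.Adj v₁ w
        · refine ⟨v₁, hv₁, ?_⟩
          rw [deg_of_adj G w v₁ ha₁]
          omega
        by_cases ha₂ : G.Adj v₂ w
        · refine ⟨v₂, hv₂.1, ?_⟩
          rw [deg_of_adj G w v₂ ha₂]
          omega
        exfalso
        have hne : v₁ ≠ v₂ := fun h => hv₂.2 h.symm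
        have hne' : v₁.1 ≠ v₂.1 := fun h => hne (Subtype.ext h)
        have hn1 : v₁.1 ∉ G.neighborSet w := fun h => ha₁ h.symm
        have hn2 : v₂.1 ∉ G.neighborSet w := fun h => ha₂ h.symm
        have hbigcl : G.IsClique (insert v₁.1 (insert v₂.1 (G.neighborSet w))) := by
          refine (hcl.insert ?_).insert ?_
          · intro b hb hb'
            have hbw : b ≠ w := by
              rintro rfl
              exact G.loopless.irrefl _ hb
            exact hu₂ ⟨b, hbw⟩ (fun h => hb' (congrArg Subtype.val h).symm)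
          · intro b hb hb'
            rcases hb with rfl | hb
            · exact hu₁ v₂ (fun h => hb' (congrArg Subtype.val h).symm)
            · have hbw : b ≠ w := by
                rintro rfl
                exact G.loopless.irrefl _ hb
              exact hu₁ ⟨b, hbw⟩ (fun h => hb' (congrArg Subtype.val h).symm)
        have hle := hGG.clique_le _ hbigcl
        rw [Set.ncard_insert_of_notMem, Set.ncard_insert_of_notMem hn2, hcard] at hle
        · omega
        · rintro (h | h)
          · exact hne' h
          · exact hn1 h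

/-- Induced subgraphs of `k`-trees are perfect: they can be coloured with as many colours as the
largest clique. -/
lemma IsKTree.colour {V : Type} {G : SimpleGraph V} (h : IsKTree k G) :
    ∀ (S : Set V) (r : ℕ), (∀ C ⊆ S, G.IsClique C → C.ncard ≤ r) →
      ∃ c : V → ℕ, (∀ v ∈ S, c v < r) ∧ ∀ u ∈ S, ∀ v ∈ S, G.Adj u v → c u ≠ c v := by
  induction h with
  | @complete V h =>
    intro S r hr
    have : Finite V := Nat.finite_of_card_ne_zero (by omega)
    classical
    have hS : S.ncard ≤ r := hr S le_rfl (fun x _ y _ hxy => hxy)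
    rw [← Nat.card_coe_set_eq] at hS
    let e := Finite.equivFin S
    refine ⟨fun v => if h : v ∈ S then (e ⟨v, h⟩).1 else 0, ?_, ?_⟩
    · intro v hv
      simp only [hv, dif_pos]
      exact (e ⟨v, hv⟩).2.trans_le hS
    · intro u hu v hv huv heq
      simp only [hu, hv, dif_pos] at heq
      have := e.injective (Fin.ext heq)
      exact huv (congrArg Subtype.val this)
  | add G w hG hcard hcl ih =>
    intro S r hr
    have := finite_of_compl hG.finite
    classical
    obtain ⟨c, hc1, hc2⟩ := ih (Subtype.val ⁻¹' S) r (by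
      intro C hCS hC
      have h1 : G.IsClique (Subtype.val '' C) := by
        rintro _ ⟨x, hx, rfl⟩ _ ⟨y, hy, rfl⟩ hxy
        exact hC hx hy (fun h => hxy (congrArg _ h))
      have h2 := hr (Subtype.val '' C) (by
        rintro _ ⟨x, hx, rfl⟩
        exact hCS hx) h1
      rwa [Set.ncard_image_of_injective _ Subtype.val_injective] at h2)
    by_cases hw : w ∈ S
    · -- the neighbours of `w` in `S`
      have h1 : (insert w (S ∩ G.neighborSet w)).ncard ≤ r := by
        apply hr
        · rintro x (rfl | hx)
          · exact hw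
          · exact hx.1
        · refine (hcl.subset Set.inter_subset_right).insert ?_
          intro b hb _
          exact hb.2
      rw [Set.ncard_insert_of_notMem (by
        rintro ⟨_, h⟩
        exact G.loopless.irrefl _ h)] at h1
      let c' : _ → ℕ := fun v => if h : v = w then 0 else c ⟨v, h⟩
      have h2 : (c' '' (S ∩ G.neighborSet w)).ncard < r :=
        lt_of_le_of_lt (Set.ncard_image_le (Set.toFinite _)) (by omega)
      obtain ⟨a, ha, ha'⟩ : ∃ a < r, a ∉ c' '' (S ∩ G.neighborSet w) := by
        by_contra hcon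
        push Not at hcon
        have h3 : ((Finset.range r : Finset ℕ) : Set ℕ) ⊆ c' '' (S ∩ G.neighborSet w) := by
          intro a ha
          exact hcon a (by simpa using ha)
        have h4 := Set.ncard_le_ncard h3 (Set.toFinite _)
        rw [Set.ncard_coe_finset, Finset.card_range] at h4
        omega
      refine ⟨fun v => if h : v = w then a else c ⟨v, h⟩, ?_, ?_⟩
      · intro v hv
        by_cases hvw : v = w
        · simpa [hvw] using ha
        · simpa [hvw] using hc1 ⟨v, hvw⟩ hv
      · intro u hu v hv huv heq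
        by_cases huw : u = w
        · subst huw
          have hvu : v ≠ u := huv.ne.symm
          simp only [dif_pos, hvu, dif_neg, not_false_eq_true] at heq
          apply ha'
          refine ⟨v, ⟨hv, huv⟩, ?_⟩
          simp only [c', hvu, dif_neg, not_false_eq_true]
          exact heq.symm
        · by_cases hvw : v = w
          · subst hvw
            simp only [dif_pos, huw, dif_neg, not_false_eq_true] at heq
            apply ha'
            refine ⟨u, ⟨hu, huv.symm⟩, ?_⟩
            simp only [c', huw, dif_neg, not_false_eq_true]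
            exact heq
          · simp only [huw, hvw, dif_neg, not_false_eq_true] at heq
            exact hc2 ⟨u, huw⟩ hu ⟨v, hvw⟩ hv huv heq
    · refine ⟨fun v => if h : v = w then 0 else c ⟨v, h⟩, ?_, ?_⟩
      · intro v hv
        have hvw : v ≠ w := by
          rintro rfl
          exact hw hv
        simpa [hvw] using hc1 ⟨v, hvw⟩ hv
      · intro u hu v hv huv heq
        have hvw : v ≠ w := by
          rintro rfl
          exact hw hv
        have huw : u ≠ w := by
          rintro rfl
          exact hw hu
        simp only [huw, hvw, dif_neg, not_false_eq_true] at heq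
        exact hc2 ⟨u, huw⟩ hu ⟨v, hvw⟩ hv huv heq

/-- The upper bound. -/
lemma upper {V : Type} {G : SimpleGraph V} (h : IsKTree k G) (t : ℕ) (hn : k + t + 2 ≤ Nat.card V) :
    (G.induce (degSet G (k + t))).chromaticNumber ≤ ((t + 1 : ℕ) : ℕ∞) := by
  rw [SimpleGraph.chromaticNumber_le_iff_colorable]
  obtain ⟨c, hc1, hc2⟩ := h.colour (degSet G (k + t)) (t + 1) (by
    intro C hCS hC
    by_contra hlt
    obtain ⟨v, hv, hd⟩ := h.key (t + 1) C hC (by omega) (by omega)
    have : (G.neighborSet v).ncard = k + t := hCS hv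
    omega)
  exact ⟨SimpleGraph.Coloring.mk (fun v => ⟨c v, hc1 v v.2⟩) (by
    intro u v huv heq
    exact hc2 u u.2 v v.2 huv (congrArg Fin.val heq))⟩

/-- A clique `K` of order `k+1` together with further vertices, each joined to exactly `k` vertices
of `K`, is a `k`-tree. -/
lemma star_kTree (m : ℕ) : ∀ (V : Type) (G : SimpleGraph V) (K : Set V), Finite V →
    K.ncard = k + 1 → Nat.card V = k + 1 + m → G.IsClique K →
    (∀ w ∉ K, G.neighborSet w ⊆ K ∧ (G.neighborSet w).ncard = k) → IsKTree k G := by
  induction m with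
  | zero =>
    intro V G K hfin hK hV hcl _
    have hK' : K = Set.univ := by
      apply Set.eq_of_subset_of_ncard_le (Set.subset_univ _) _ (Set.toFinite _)
      rw [Set.ncard_univ]
      omega
    have hG : G = ⊤ := by
      ext x y
      rw [top_adj]
      constructor
      · exact fun h => h.ne
      · exact fun h => hcl (by simp [hK']) (by simp [hK']) h
    rw [hG]
    exact .complete hV
  | succ m ih =>
    intro V G K hfin hK hV hcl hN
    obtain ⟨w, hw⟩ : ∃ w, w ∉ K := by
      by_contra hcon
      push Not at hcon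
      have : K = Set.univ := Set.eq_univ_of_forall hcon
      rw [this, Set.ncard_univ] at hK
      omega
    have hc := card_compl w
    refine .add G w (ih _ _ (Subtype.val ⁻¹' K) inferInstance ?_ (by omega)
      (isClique_preimage hcl) ?_) (hN w hw).2 (hcl.subset (hN w hw).1)
    · rw [ncard_preimage_notMem w K hw, hK]
    · intro v hv
      rw [neighborSet_induce]
      have h := hN v.1 hv
      refine ⟨fun x hx => h.1 hx, ?_⟩
      rw [ncard_preimage_notMem w _ (fun h' => hw (h.1 h')), h.2]

/-- The extremal `k`-tree: a clique on `Fin (k+1)` and `t+1` further vertices, the `j`-th one joined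
to all vertices of the clique but the `j`-th one. -/
def ex (k t : ℕ) : SimpleGraph (Fin (k + 1) ⊕ Fin (t + 1)) where
  Adj x y := match x, y with
    | .inl i, .inl j => i ≠ j
    | .inl i, .inr j => i.val ≠ j.val
    | .inr j, .inl i => i.val ≠ j.val
    | .inr _, .inr _ => False
  symm := ⟨by
    rintro (i | i) (j | j) h
    · exact fun h' => h h'.symm
    · exact h
    · exact h
    · exact h⟩
  loopless := ⟨by
    rintro (i | i) h
    · exact h rfl
    · exact h⟩

lemma ncard_compl_fin (n : ℕ) (i : Fin (n + 1)) : ({i}ᶜ : Set (Fin (n + 1))).ncard = n := by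
  have h := card_compl i
  rw [Nat.card_coe_set_eq, Nat.card_eq_fintype_card, Fintype.card_fin] at h
  omega

lemma ex_inr (k t : ℕ) (htk : t ≤ k) (j : Fin (t + 1)) :
    (ex k t).neighborSet (.inr j) = Sum.inl '' ({⟨j.1, by omega⟩}ᶜ : Set (Fin (k + 1))) := by
  ext x
  rcases x with i | i
  · simp only [mem_neighborSet, Set.mem_image, Set.mem_compl_iff, Set.mem_singleton_iff,
      Sum.inl.injEq, exists_eq_right]
    show i.val ≠ j.val ↔ _
    rw [Fin.ext_iff]
  · simp only [mem_neighborSet, Set.mem_image, reduceCtorEq, and_false, exists_false, iff_false]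
    exact fun h => h

lemma ex_inl (k t : ℕ) (i : Fin (k + 1)) (hi : i.1 < t + 1) :
    (ex k t).neighborSet (.inl i) = Sum.inl '' ({i}ᶜ : Set (Fin (k + 1))) ∪
      Sum.inr '' ({⟨i.1, hi⟩}ᶜ : Set (Fin (t + 1))) := by
  ext x
  rcases x with j | j
  · simp only [mem_neighborSet, Set.mem_union, Set.mem_image, Set.mem_compl_iff,
      Set.mem_singleton_iff, Sum.inl.injEq, exists_eq_right, reduceCtorEq, and_false, exists_false,
      or_false]
    show i ≠ j ↔ _
    exact ne_comm
  · simp only [mem_neighborSet, Set.mem_union, Set.mem_image, Set.mem_compl_iff,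
      Set.mem_singleton_iff, Sum.inr.injEq, exists_eq_right, reduceCtorEq, and_false, exists_false,
      false_or]
    show i.val ≠ j.val ↔ _
    rw [Fin.ext_iff]
    exact ne_comm

lemma ex_kTree (k t : ℕ) (htk : t ≤ k) : IsKTree k (ex k t) := by
  refine star_kTree (t + 1) _ _ (Set.range Sum.inl) inferInstance ?_ ?_ ?_ ?_
  · rw [← Set.image_univ, Set.ncard_image_of_injective _ Sum.inl_injective, Set.ncard_univ]
    simp
  · simp
  · rintro _ ⟨i, rfl⟩ _ ⟨j, rfl⟩ hij
    exact fun h => hij (congrArg _ h)
  · intro w hw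
    rcases w with i | j
    · exact absurd ⟨i, rfl⟩ hw
    · rw [ex_inr k t htk j]
      refine ⟨Set.image_subset_range _ _, ?_⟩
      rw [Set.ncard_image_of_injective _ Sum.inl_injective, ncard_compl_fin]

lemma ex_deg (k t : ℕ) (i : Fin (k + 1)) (hi : i.1 < t + 1) :
    ((ex k t).neighborSet (.inl i)).ncard = k + t := by
  rw [ex_inl k t i hi, Set.ncard_union_eq, Set.ncard_image_of_injective _ Sum.inl_injective,
    Set.ncard_image_of_injective _ Sum.inr_injective, ncard_compl_fin, ncard_compl_fin]
  · rw [Set.disjoint_left]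
    rintro _ ⟨a, _, rfl⟩ ⟨b, _, h⟩
    exact absurd h (by simp)

lemma ex_lower (k t : ℕ) (htk : t ≤ k) :
    ((t + 1 : ℕ) : ℕ∞) ≤ ((ex k t).induce (degSet (ex k t) (k + t))).chromaticNumber := by
  rw [SimpleGraph.le_chromaticNumber_iff_colorable]
  intro m hm
  obtain ⟨c⟩ := hm
  let f : Fin (t + 1) → Fin m := fun i => c ⟨.inl ⟨i.1, by omega⟩, ex_deg k t _ i.2⟩
  have hf : Function.Injective f := by
    intro i j hij
    by_contra hne
    refine c.valid (v := ⟨.inl ⟨i.1, by omega⟩, ex_deg k t _ i.2⟩)
      (w := ⟨.inl ⟨j.1, by omega⟩, ex_deg k t _ j.2⟩) ?_ hij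
    show (⟨i.1, _⟩ : Fin (k + 1)) ≠ ⟨j.1, _⟩
    intro h
    exact hne (Fin.ext (Fin.mk.inj_iff.mp h))
  have := Fintype.card_le_of_injective f hf
  simpa using this

lemma g_eq (t : ℕ) : g t = ((t + 1 : ℕ) : ℕ∞) := by
  apply le_antisymm
  · apply sSup_le
    rintro x ⟨k, V, G, _, hG, hn, rfl⟩
    exact upper hG t hn
  · refine (ex_lower (t + 1) t (by omega)).trans (le_sSup ?_)
    refine ⟨t + 1, _, ex (t + 1) t, by omega, ex_kTree _ _ (by omega), ?_, rfl⟩
    simp
    omega

/-- **Theorem.** `g(t) = t + 1` for every `t ≥ 0`. More precisely, in every `k`-tree of order at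
least `k+t+2` the vertices of degree `k+t` induce a subgraph of chromatic number at most `t+1`, and
for all `k ≥ 1` and `t ≤ k` equality holds for some `k`-tree of order `k+t+2`. In particular
`g(t) = (t² + t + 2)/2` exactly when `t ≤ 1`. -/
theorem result :
    (∀ t : ℕ, g t = ((t + 1 : ℕ) : ℕ∞)) ∧
    (∀ t : ℕ, g t = (((t ^ 2 + t + 2) / 2 : ℕ) : ℕ∞) ↔ t ≤ 1) ∧
    (∀ (k t : ℕ) (V : Type) (G : SimpleGraph V), 1 ≤ k → IsKTree k G → k + t + 2 ≤ Nat.card V →
      (G.induce (degSet G (k + t))).chromaticNumber ≤ ((t + 1 : ℕ) : ℕ∞)) ∧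
    ∀ k t : ℕ, 1 ≤ k → t ≤ k → ∃ (V : Type) (G : SimpleGraph V), IsKTree k G ∧
      Nat.card V = k + t + 2 ∧
      (G.induce (degSet G (k + t))).chromaticNumber = ((t + 1 : ℕ) : ℕ∞) := by
  refine ⟨g_eq, ?_, fun k t V G _ hG hn => upper hG t hn, ?_⟩
  · intro t
    rw [g_eq, Nat.cast_inj]
    constructor
    · intro h
      by_contra ht
      push Not at ht
      have h1 : 2 * (t + 1) < t ^ 2 + t + 1 := by nlinarith
      omega
    · intro h
      interval_cases t <;> rfl
  · intro k t _ htk
    refine ⟨_, ex k t, ex_kTree k t htk, ?_, ?_⟩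
    · simp
      omega
    · refine le_antisymm (upper (ex_kTree k t htk) t ?_) (ex_lower k t htk)
      simp
      omega

end Pool.Agent.Results.MP_26d357_co.GrowthIsLinear
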